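import Pool.Agent.T6.H63.GS.Main

/-!
# A Gaussianity criterion for stationary waves (MP_4fa179_mp)

Every Benjamini-Schramm limit of Laplace eigenfunctions of a compact Riemannian manifold of
dimension `d`, rescaled to eigenvalue `1`, is the law of a stationary random field on `ℝ^d` with
smooth samples, `ΔF + F = 0` and `E F(0)² ≤ 1`. The theorem is about all such fields: it
characterises the Gaussian ones, and the isotropic monochromatic random wave among them, by the
mean of the energy `|∇X|²` of a linear observable `X` given the value of `X`.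
-/

set_option autoImplicit false
open MeasureTheory ProbabilityTheory Filter Topology
open scoped ContDiff RealInnerProductSpace

namespace Pool.Agent.Results.MP_4fa179_mp.GaussianityCriterion

noncomputable section

/-- the Laplacian `∑ ∂_i²` of `ℝ^d` -/
def laplacian {d : ℕ} (f : EuclideanSpace ℝ (Fin d) → ℝ) (y : EuclideanSpace ℝ (Fin d)) : ℝ :=
  ∑ i, fderiv ℝ (fun z => fderiv ℝ f z (EuclideanSpace.single i 1)) y (EuclideanSpace.single i 1)

/-- `F` is a stationary random field on `ℝ^d` with smooth samples, `ΔF + F = 0` and `E F(0)² < ∞`.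
Stationary means: the shifted field has the same law, in the product of copies of `ℝ` indexed by
the points of `ℝ^d`. -/
structure IsStationaryWave {d : ℕ} {S : Type*} [MeasurableSpace S] (P : Measure S)
    (F : S → EuclideanSpace ℝ (Fin d) → ℝ) : Prop where
  prob : IsProbabilityMeasure P
  measurable : ∀ y, Measurable fun s => F s y
  smooth : ∀ s, ContDiff ℝ ∞ (F s)
  eigen : ∀ s y, laplacian (F s) y + F s y = 0
  stationary : ∀ x : EuclideanSpace ℝ (Fin d),
    P.map (fun s y => F s (y + x)) = P.map (fun s y => F s y)
  moment : Integrable (fun s => F s 0 ^ 2) P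

/-- the linear observable `X = ∑_{y ∈ I} a(y) F(y)` -/
def obs {d : ℕ} {S : Type*} (F : S → EuclideanSpace ℝ (Fin d) → ℝ)
    (I : Finset (EuclideanSpace ℝ (Fin d))) (a : EuclideanSpace ℝ (Fin d) → ℝ) (s : S) : ℝ :=
  ∑ y ∈ I, a y * F s y

/-- the energy `|∇X|²` of the observable, `∇X = ∑_{y ∈ I} a(y) ∇F(y)` -/
def energy {d : ℕ} {S : Type*} (F : S → EuclideanSpace ℝ (Fin d) → ℝ)
    (I : Finset (EuclideanSpace ℝ (Fin d))) (a : EuclideanSpace ℝ (Fin d) → ℝ) (s : S) : ℝ :=
  ∑ i, (∑ y ∈ I, a y * fderiv ℝ (F s) y (EuclideanSpace.single i 1)) ^ 2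

/-- the conditional mean `E(|∇X|² | X)` of the energy given the value of the observable -/
def condEnergy {d : ℕ} {S : Type*} [MeasurableSpace S] (P : Measure S)
    (F : S → EuclideanSpace ℝ (Fin d) → ℝ)
    (I : Finset (EuclideanSpace ℝ (Fin d))) (a : EuclideanSpace ℝ (Fin d) → ℝ) : S → ℝ :=
  P[energy F I a | MeasurableSpace.comap (obs F I a) inferInstance]

/-- the covariance function `κ(z) = ∫ cos⟨z, ω⟩ dσ(ω)` of the isotropic random wave, `σ` the
uniform probability measure on the unit sphere -/
def waveCov {d : ℕ} (z : EuclideanSpace ℝ (Fin d)) : ℝ :=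
  ∫ w : Metric.sphere (0 : EuclideanSpace ℝ (Fin d)) 1, Real.cos ⟪z, (w : EuclideanSpace ℝ (Fin d))⟫
    ∂(((volume : Measure (EuclideanSpace ℝ (Fin d))).toSphere Set.univ)⁻¹ •
      (volume : Measure (EuclideanSpace ℝ (Fin d))).toSphere)

/-- `F` is a version of the isotropic monochromatic Gaussian random wave of eigenvalue `1` -/
def IsRandomWave {d : ℕ} {S : Type*} [MeasurableSpace S] (P : Measure S)
    (F : S → EuclideanSpace ℝ (Fin d) → ℝ) : Prop :=
  IsGaussianProcess (fun y s => F s y) P ∧ (∀ y, ∫ s, F s y ∂P = 0) ∧
    ∀ x y, ∫ s, F s x * F s y ∂P = waveCov (x - y)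

lemma waveCov_neg {d : ℕ} (z : EuclideanSpace ℝ (Fin d)) : waveCov (-z) = waveCov z := by
  unfold waveCov
  congr 1; funext w
  rw [inner_neg_left, Real.cos_neg]

/-- **A Gaussianity criterion.** Let `F` be a stationary wave. (1) For every linear observable `X`
with `v = E X² > 0` the characteristic function of `X` differs from the one of `N(0, v)` at `t` by
at most `(1 - exp(-v t²/2)) E|E(|∇X|² | X) - v| / v`. (2) `F` is a Gaussian process if and only if
`E(|∇X|² | X) = E X²` for all linear observables `X`. (3) In particular `F` is a Gaussian process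
if the energy `|∇X|²` is independent of `X` for all of them. (4) `F` is the isotropic random wave
if and only if `E(|∇X|² | X)` is, for all linear observables, the constant which it is for the
random wave. -/
theorem result {d : ℕ} {S : Type*} [MeasurableSpace S] (P : Measure S)
    (F : S → EuclideanSpace ℝ (Fin d) → ℝ) (hF : IsStationaryWave P F) :
    (∀ I a v, v = ∫ s, obs F I a s ^ 2 ∂P → 0 < v → ∀ t : ℝ,
      ‖charFun (P.map (obs F I a)) t - Real.exp (-(v * t ^ 2) / 2)‖ ≤
        (1 - Real.exp (-(v * t ^ 2) / 2)) / v * ∫ s, |condEnergy P F I a s - v| ∂P) ∧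
    (IsGaussianProcess (fun y s => F s y) P ↔
      ∀ I a, condEnergy P F I a =ᵐ[P] fun _ => ∫ s, obs F I a s ^ 2 ∂P) ∧
    ((∀ I a, IndepFun (energy F I a) (obs F I a) P) →
      IsGaussianProcess (fun y s => F s y) P) ∧
    (IsRandomWave P F ↔
      ∀ I a, condEnergy P F I a =ᵐ[P] fun _ => ∑ x ∈ I, ∑ y ∈ I, a x * a y * waveCov (x - y)) := by
  classical
  have := hF.prob
  have st : ∀ I a, Pool.Agent.T6.H63.GS.Stein P (obs F I a) (energy F I a) := fun I a =>
    Pool.Agent.T6.H63.GS.stein_F hF.measurable hF.smooth hF.eigen hF.stationary hF.moment I a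
  have m0 : ∀ I a, ∫ s, obs F I a s ∂P = 0 := fun I a => (st I a).mean
  have pr := Pool.Agent.T6.H63.GS.process_iff (P := P) (F := fun y s => F s y) hF.measurable
    (fun I a => (st I a).X2) m0
  have two : IsGaussianProcess (fun y s => F s y) P ↔
      ∀ I a, condEnergy P F I a =ᵐ[P] fun _ => ∫ s, obs F I a s ^ 2 ∂P :=
    pr.trans (forall_congr' fun I => forall_congr' fun a => (st I a).gauss_iff)
  have ob1 : ∀ x c s, obs F {x} c s = c x * F s x := fun x c s => by
    unfold obs; rw [Finset.sum_singleton]
  have mz : ∀ y, ∫ s, F s y ∂P = 0 := fun y => by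
    have := m0 {y} (fun _ => 1)
    simp only [ob1, one_mul] at this
    exact this
  have sq : ∀ y, Integrable (fun s => F s y ^ 2) P := fun y => by
    have := (st {y} (fun _ => 1)).X2
    simp only [ob1, one_mul] at this
    exact this
  have pp : ∀ x y, Integrable (fun s => F s x * F s y) P := fun x y =>
    Pool.Agent.Y139.SW.mul_l2 (hF.measurable x) (hF.measurable y) (sq x) (sq y)
  have ex : ∀ I a, ∫ s, obs F I a s ^ 2 ∂P =
      ∑ x ∈ I, ∑ y ∈ I, a x * a y * ∫ s, F s x * F s y ∂P := by
    intro I a
    have e1 : ∀ s, obs F I a s ^ 2 = ∑ x ∈ I, ∑ y ∈ I, a x * a y * (F s x * F s y) := by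
      intro s
      unfold obs
      rw [pow_two, Finset.sum_mul_sum]
      exact Finset.sum_congr rfl fun x _ => Finset.sum_congr rfl fun y _ => by ring
    simp only [e1]
    rw [integral_finsetSum _ fun x _ => integrable_finsetSum _ fun y _ => (pp x y).const_mul _]
    refine Finset.sum_congr rfl fun x _ => ?_
    rw [integral_finsetSum _ fun y _ => (pp x y).const_mul _]
    exact Finset.sum_congr rfl fun y _ => integral_const_mul _ _
  refine ⟨fun I a v hv v0 t => ?_, two, fun h => two.2 fun I a => (st I a).indep (h I a), ?_⟩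
  · exact (st I a).main' v0 t
  · constructor
    · rintro ⟨hG, _, hc⟩ I a
      have h := two.1 hG I a
      rw [ex] at h
      simp only [hc] at h
      exact h
    · intro h
      -- the variance of every observable
      have key : ∀ I a, ∫ s, obs F I a s ^ 2 ∂P =
          ∑ x ∈ I, ∑ y ∈ I, a x * a y * waveCov (x - y) := by
        intro I a
        have h1 : ∫ s, condEnergy P F I a s ∂P = ∫ s, energy F I a s ∂P :=
          integral_condExp (Pool.Agent.T6.H63.GS.sX_le (st I a).mX)
        rw [(st I a).en, integral_congr_ae (h I a)] at h1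
        rw [← h1]
        simp
      have c0 : ∀ x, ∫ s, F s x ^ 2 ∂P = waveCov 0 := fun x => by
        have := key {x} (fun _ => 1)
        simp only [ob1, one_mul, Finset.sum_singleton, sub_self] at this
        exact this
      refine ⟨two.2 fun I a => ?_, mz, fun x y => ?_⟩
      · rw [key]; exact h I a
      · by_cases hxy : x = y
        · subst hxy
          rw [sub_self, ← c0 x]
          congr 1; funext s; ring
        · have k := key {x, y} (fun _ => 1)
          have e2 : ∀ s, obs F {x, y} (fun _ => 1) s ^ 2 =
              F s x ^ 2 + (F s y ^ 2 + 2 * (F s x * F s y)) := by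
            intro s
            unfold obs
            rw [Finset.sum_pair hxy]; ring
          simp only [e2] at k
          have i3 : Integrable (fun s => 2 * (F s x * F s y)) P := (pp x y).const_mul 2
          have i4 : Integrable (fun s => F s y ^ 2 + 2 * (F s x * F s y)) P := (sq y).add i3
          rw [integral_add (sq x) i4, integral_add (sq y) i3, integral_const_mul, c0, c0] at k
          simp only [Finset.sum_pair hxy, one_mul, sub_self] at k
          rw [← neg_sub x y, waveCov_neg] at k
          linarith

end

end Pool.Agent.Results.MP_4fa179_mp.GaussianityCriterion
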