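import Pool.Agent.T6.H63.ZC.Ex
import Pool.Agent.T6.H63.NU.Fin

/-!
# Level crossings and nodal length of stationary waves (MP_4fa179_mp)

Every Benjamini-Schramm limit of Laplace eigenfunctions of a compact Riemannian manifold of
dimension `d`, rescaled to eigenvalue `1`, is the law of a stationary random field on `ℝ^d` with
smooth samples, `ΔF + F = 0` and `E F(0)² ≤ 1`. The theorem is about all such fields.

Proof idea. By Bernstein's inequality in `L²` almost every sample extends to an entire function of
exponential type `1` along every line. Jensen's formula bounds the zeros in large discs, and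
stationarity turns this into a bound for the mean number of zeros in a segment. In the plane, a
Crofton type inequality with finitely many directions and small squares in which the level set is
almost straight gives a bound for the mean length of the level sets.
-/

set_option autoImplicit false
open MeasureTheory Filter Topology
open scoped ContDiff ENNReal RealInnerProductSpace

namespace Pool.Agent.Results.MP_4fa179_mp.LevelCrossings

noncomputable section

/-- the Laplacian `∑ ∂_i²` of `ℝ^d` -/
def laplacian {d : ℕ} (f : EuclideanSpace ℝ (Fin d) → ℝ) (y : EuclideanSpace ℝ (Fin d)) : ℝ :=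
  ∑ i, fderiv ℝ (fun z => fderiv ℝ f z (EuclideanSpace.single i 1)) y (EuclideanSpace.single i 1)

/-- `F` is a stationary random field on `ℝ^d` with smooth samples, `ΔF + F = 0` and `E F(0)² < ∞`.
Stationary means: the shifted field has the same law, in the product of copies of `ℝ` indexed by
the points of `ℝ^d`. -/
structure IsStationaryWave {d : ℕ} {S : Type*} [MeasurableSpace S] (P : Measure S)
    (F : S → EuclideanSpace ℝ (Fin d) → ℝ) : Prop where
  prob : IsProbabilityMeasure P
  measurable : ∀ y, Measurable fun s => F s y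
  smooth : ∀ s, ContDiff ℝ ∞ (F s)
  eigen : ∀ s y, laplacian (F s) y + F s y = 0
  stationary : ∀ x : EuclideanSpace ℝ (Fin d),
    P.map (fun s y => F s (y + x)) = P.map (fun s y => F s y)
  moment : Integrable (fun s => F s 0 ^ 2) P

/-- the linear observable `X(t) = ∑_{x ∈ I} a(x) F(x + t e)`, for instance `F(x + t e)` -/
def along {d : ℕ} {S : Type*} (F : S → EuclideanSpace ℝ (Fin d) → ℝ)
    (I : Finset (EuclideanSpace ℝ (Fin d))) (a : EuclideanSpace ℝ (Fin d) → ℝ)
    (e : EuclideanSpace ℝ (Fin d)) (s : S) (t : ℝ) : ℝ :=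
  ∑ x ∈ I, a x * F s (t • e + x)

/-- the number (a natural number or `∞`) of the points `t` of `[0, T)` with `X(t) = u` -/
def crossings (X : ℝ → ℝ) (u T : ℝ) : ℝ≥0∞ :=
  (({t | t ∈ Set.Ico 0 T ∧ X t = u} : Set ℝ).encard : ℝ≥0∞)

/-- the nodal set of `f` in the disc of radius `R` -/
def nodal (f : EuclideanSpace ℝ (Fin 2) → ℝ) (R : ℝ) : Set (EuclideanSpace ℝ (Fin 2)) :=
  {x | x ∈ Metric.ball (0 : EuclideanSpace ℝ (Fin 2)) R ∧ f x = 0}

/-- the regular part of the level set `{f = u}` in the disc of radius `R` -/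
def level (f : EuclideanSpace ℝ (Fin 2) → ℝ) (u R : ℝ) : Set (EuclideanSpace ℝ (Fin 2)) :=
  {x | x ∈ Metric.ball (0 : EuclideanSpace ℝ (Fin 2)) R ∧ f x = u ∧ fderiv ℝ f x ≠ 0}

/-- **Level crossings and nodal length of stationary waves.** (1) Let `F` be a stationary wave on
`ℝ^d`, `e` a unit vector, `u` a level, `T > 0`, and `X(t)` a linear observable of `F` (for instance
`F(x + t e)`). Let `A` be the event that `X` is not constant with value `u`. Then the mean number of
points `t ∈ [0, T)` with `X(t) = u`, on the event `A`, is at most `T P(A) / π`. (2) The constant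
`1/π` cannot be improved: for every unit vector `e` there is a stationary wave of variance `1` for
which every level `|u| < √2` is attained exactly twice on every segment `[x, x + 2π e)`.
(3) In the plane (`d = 2`), for every `R > 0` the mean length (one-dimensional Hausdorff measure) of
the nodal set in the disc of radius `R`, over the samples which do not vanish identically, and of
the regular part of every level set, is at most `π R² / 2`, that is `1/2` per unit area. -/
theorem result {d : ℕ} :
    (∀ {S : Type*} [MeasurableSpace S] (P : Measure S)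
      (F : S → EuclideanSpace ℝ (Fin d) → ℝ), IsStationaryWave P F →
      ∀ (I : Finset (EuclideanSpace ℝ (Fin d))) (a : EuclideanSpace ℝ (Fin d) → ℝ)
        (e : EuclideanSpace ℝ (Fin d)), ‖e‖ = 1 → ∀ u T : ℝ, 0 < T →
      Measurable (fun s => crossings (along F I a e s) u T) ∧
      MeasurableSet {s | ∃ t, along F I a e s t ≠ u} ∧
      ∫⁻ s in {s | ∃ t, along F I a e s t ≠ u}, crossings (along F I a e s) u T ∂P ≤
        ENNReal.ofReal (T / Real.pi) * P {s | ∃ t, along F I a e s t ≠ u}) ∧
    (∀ e : EuclideanSpace ℝ (Fin d), ‖e‖ = 1 →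
      ∃ (S : Type) (_ : MeasurableSpace S) (P : Measure S)
        (F : S → EuclideanSpace ℝ (Fin d) → ℝ), IsStationaryWave P F ∧
        ∫ s, F s 0 ^ 2 ∂P = 1 ∧ ∀ u : ℝ, |u| < √2 → ∀ s x,
          crossings (fun t => F s (t • e + x)) u (2 * Real.pi) = 2) ∧
    ∀ {S : Type*} [MeasurableSpace S] (P : Measure S)
      (F : S → EuclideanSpace ℝ (Fin 2) → ℝ), IsStationaryWave P F → ∀ R : ℝ, 0 < R →
      (∃ L : S → ℝ≥0∞, Measurable L ∧
        (∀ s, (∃ x, F s x ≠ 0) → μH[1] (nodal (F s) R) ≤ L s) ∧
        ∫⁻ s, L s ∂P ≤ ENNReal.ofReal (Real.pi * R ^ 2 / 2)) ∧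
      ∀ u : ℝ, ∃ L : S → ℝ≥0∞, Measurable L ∧ (∀ s, μH[1] (level (F s) u R) ≤ L s) ∧
        ∫⁻ s, L s ∂P ≤ ENNReal.ofReal (Real.pi * R ^ 2 / 2) := by
  refine ⟨?_, ?_, ?_⟩
  · intro S _ P F hF I a e he u T hT
    have := hF.prob
    exact Pool.Agent.T6.H63.ZC.mean_count_F (P := P) hF.measurable hF.smooth hF.eigen
      hF.stationary hF.moment I a e he.le u hT
  · intro e he
    refine ⟨Pool.Agent.T6.H63.ZC.Ci, inferInstance, AddCircle.haarAddCircle,
      Pool.Agent.T6.H63.ZC.pw e, ?_, ?_, ?_⟩
    · exact ⟨inferInstance, Pool.Agent.T6.H63.ZC.pw_meas e, Pool.Agent.T6.H63.ZC.pw_smooth e,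
        Pool.Agent.T6.H63.ZC.pw_eigen he, Pool.Agent.T6.H63.ZC.pw_stat e,
        (Pool.Agent.T6.H63.ZC.pw_var e).1⟩
    · exact (Pool.Agent.T6.H63.ZC.pw_var e).2
    · intro u hu s x
      have := Pool.Agent.T6.H63.ZC.pw_count he hu s x
      unfold crossings
      rw [this]
      rfl
  · intro S _ P F hF R hR
    have := hF.prob
    have key : ∀ u : ℝ, ∃ L : S → ℝ≥0∞, Measurable L ∧ (∀ s, μH[1] (level (F s) u R) ≤ L s) ∧
        ∫⁻ s, L s ∂P ≤ ENNReal.ofReal (Real.pi * R ^ 2 / 2) := by
      intro u
      obtain ⟨g, h1, h2, h3⟩ := Pool.Agent.T6.H63.NU.len_reg (P := P) hF.measurable hF.smooth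
        hF.eigen hF.eigen hF.stationary hF.moment u hR
      refine ⟨g, h1, h2, h3.trans (le_of_eq ?_)⟩
      congr 1
      ring
    refine ⟨?_, key⟩
    obtain ⟨L, h1, h2, h3⟩ := key 0
    exact ⟨L, h1, fun s hs => (Pool.Agent.T6.H63.NU.nodal_le (hF.smooth s) (hF.eigen s) hs
      R).trans (h2 s), h3⟩

end

end Pool.Agent.Results.MP_4fa179_mp.LevelCrossings
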