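import Pool.Agent.T6.H5.PL.Fin

/-!
# Random plane waves are extremal for all `L^p` norms of stationary waves (MP_4fa179_mp)

Every Benjamini-Schramm limit of Laplace eigenfunctions of a compact Riemannian manifold of
dimension `d`, rescaled to eigenvalue `1`, is the law of a stationary random field on `ℝ^d` with
smooth samples, `ΔF + F = 0` and `E F(0)² ≤ 1`. The theorem is about all such fields. Let `c p` be
the mean of `|cos|^p` (`c 1 = 2/π`, `c 2 = 1/2`). For every real `p > 2`
`E |F|^p ≥ c p * E (F² + |∇F|²)^(p/2) ≥ c p * (2 E F²)^(p/2)`, for `1 ≤ p < 2` both inequalities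
are reversed. So among the stationary waves with given variance the random plane waves
`√(2 E F²) cos(⟨e, y⟩ + θ)` have the smallest `L^p` norm for `p > 2` and the largest `L^p` norm for
`1 ≤ p < 2` (for example `E |F| ≤ (2 √2 / π) √(E F²)`), and for each `p ≠ 2` they are the only ones.

Proof idea. Let `ρ = F² + |∇F|²`, `q = |∇F|²` and let `a, c` be functions of `(F, ρ)`. For
`W = a ∇F - (c/2) ∇ρ` Bochner's formula gives
`div W = q a_F - a F + (a_ρ - c_F/2) ∇F·∇ρ - (c_ρ/2) |∇ρ|² - c (|D²F|² - F²)`,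
and `E div W = 0` by stationarity. If `q a_F - F a = |F|^p - c p ρ^(p/2)` and
`q c_F - 2 F c = 2 q a_ρ` then
`E (|F|^p - c p ρ^(p/2)) = E ((c_ρ/2) |∇ρ|² + c (|D²F|² - F² + (F/q) ∇F·∇ρ))`, and by
`|D²F|² |∇F|² ≥ |D²F ∇F|²` the right hand side is at least `E |∇ρ|² (2 q c_ρ + c) / (4 q)` if
`c ≥ 0`. For the homogeneous solution of these equations both `c` and `2 q c_ρ + c` have the sign
of `p - 2` (one-variable calculus, by a chain of derivatives with a single change of sign). Cutoffs
near `q = 0`, `ρ = 0`, `ρ = ∞` are removed with Bernstein's inequality in `L^p` (module B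
of `Pool/Agent/T6/H5/PW`). The second inequality is Jensen's inequality for `ρ`, `E ρ = 2 E F²`, with equality
only if `ρ` is constant; then the samples are plane waves.

Modules (`Pool/Agent/T6/H5/PL`): CB, CC, W helper5, ID helper60, S helper49, GE and CA helper58,
CD helper36, JE helper94, NZ helper29, MO helper3.
-/

set_option autoImplicit false
open MeasureTheory Filter Topology
open scoped ContDiff ENNReal

namespace Pool.Agent.Results.MP_4fa179_mp.LpNorms

noncomputable section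

/-- the partial derivative in the direction of the `i`-th coordinate -/
def partialD {d : ℕ} (i : Fin d) (f : EuclideanSpace ℝ (Fin d) → ℝ)
    (y : EuclideanSpace ℝ (Fin d)) : ℝ :=
  fderiv ℝ f y (EuclideanSpace.single i 1)

/-- the Laplacian `∑ ∂_i²` of `ℝ^d` -/
def laplacian {d : ℕ} (f : EuclideanSpace ℝ (Fin d) → ℝ) (y : EuclideanSpace ℝ (Fin d)) : ℝ :=
  ∑ i, partialD i (partialD i f) y

/-- `F` is a stationary random field on `ℝ^d` with smooth samples, `ΔF + F = 0` and `E F(0)² < ∞`.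
Stationary means: the shifted field has the same law, in the product of copies of `ℝ` indexed by
the points of `ℝ^d`. -/
structure IsStationaryWave {d : ℕ} {S : Type*} [MeasurableSpace S] (P : Measure S)
    (F : S → EuclideanSpace ℝ (Fin d) → ℝ) : Prop where
  prob : IsProbabilityMeasure P
  measurable : ∀ y, Measurable fun s => F s y
  smooth : ∀ s, ContDiff ℝ ∞ (F s)
  eigen : ∀ s y, laplacian (F s) y + F s y = 0
  stationary : ∀ x : EuclideanSpace ℝ (Fin d),
    P.map (fun s y => F s (y + x)) = P.map (fun s y => F s y)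
  moment : Integrable (fun s => F s 0 ^ 2) P

/-- the variance `E F(0)²` (the mean of `F(0)` is `0`) -/
def var {d : ℕ} {S : Type*} [MeasurableSpace S] (P : Measure S)
    (F : S → EuclideanSpace ℝ (Fin d) → ℝ) : ℝ := ∫ s, F s 0 ^ 2 ∂P

/-- `ρ = F² + |∇F|²` at the point `0` -/
def rho {d : ℕ} (f : EuclideanSpace ℝ (Fin d) → ℝ) : ℝ := f 0 ^ 2 + ∑ i, partialD i f 0 ^ 2

/-- the mean of `|cos|^p` -/
def c (p : ℝ) : ℝ := (∫ t in (0 : ℝ)..Real.pi, |Real.cos t| ^ p) / Real.pi

/-- **Random plane waves are extremal for all `L^p` norms.** Let `F` be a stationary wave with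
`E F(0)² > 0`, let `p ≥ 1` be real and `E |F(0)|^p < ∞` (automatic for `p ≤ 2`). Then
(1) `c p (2 E F(0)²)^(p/2) ≤ c p E ρ^(p/2) ≤ E |F(0)|^p` if `p > 2`;
(2) `E |F(0)|^p ≤ c p E ρ^(p/2) ≤ c p (2 E F(0)²)^(p/2)` if `p < 2`;
(3) if `p ≠ 2` and `E |F(0)|^p = c p (2 E F(0)²)^(p/2)`, then almost every sample of `F` is a plane
wave `√(2 E F(0)²) cos(⟨e, y⟩ + θ)` with a unit vector `e` and a phase `θ`. -/
theorem result {d : ℕ} {S : Type*} [MeasurableSpace S] (P : Measure S)
    (F : S → EuclideanSpace ℝ (Fin d) → ℝ) (hF : IsStationaryWave P F) (hpos : 0 < var P F)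
    (p : ℝ) (hp : 1 ≤ p) (hint : 2 < p → Integrable (fun s => |F s 0| ^ p) P) :
    (2 < p → c p * (2 * var P F) ^ (p / 2) ≤ c p * ∫ s, rho (F s) ^ (p / 2) ∂P ∧
      c p * ∫ s, rho (F s) ^ (p / 2) ∂P ≤ ∫ s, |F s 0| ^ p ∂P) ∧
    (p < 2 → ∫ s, |F s 0| ^ p ∂P ≤ c p * ∫ s, rho (F s) ^ (p / 2) ∂P ∧
      c p * ∫ s, rho (F s) ^ (p / 2) ∂P ≤ c p * (2 * var P F) ^ (p / 2)) ∧
    (p ≠ 2 → ∫ s, |F s 0| ^ p ∂P = c p * (2 * var P F) ^ (p / 2) →
      ∀ᵐ s ∂P, ∃ (e : EuclideanSpace ℝ (Fin d)) (θ : ℝ), ‖e‖ = 1 ∧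
        ∀ y, F s y = √(2 * var P F) * Real.cos (inner ℝ e y + θ)) := by
  have := hF.prob
  have hint' : Integrable (fun s => |F s 0| ^ p) P := by
    rcases lt_or_ge 2 p with h | h
    · exact hint h
    · refine Integrable.mono' ((integrable_const (1 : ℝ)).add hF.moment)
        ((measurable_norm.comp (hF.measurable 0)).pow_const p).aestronglyMeasurable
        (ae_of_all _ fun s => ?_)
      show ‖|F s 0| ^ p‖ ≤ 1 + F s 0 ^ 2
      have h0 := abs_nonneg (F s 0)
      rw [Real.norm_eq_abs, abs_of_nonneg (Real.rpow_nonneg h0 _), ← sq_abs (F s 0)]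
      rcases le_or_gt |F s 0| 1 with h1 | h1
      · have := Real.rpow_le_one h0 h1 (by linarith : 0 ≤ p)
        nlinarith [sq_nonneg |F s 0|]
      · have := Real.rpow_le_rpow_of_exponent_le h1.le h
        rw [Real.rpow_two] at this
        linarith
  by_cases hp2 : p = 2
  · subst hp2
    exact ⟨fun h => absurd h (lt_irrefl _), fun h => absurd h (lt_irrefl _),
      fun h => absurd rfl h⟩
  have key := Pool.Agent.T6.H5.PL.fin (P := P) (F := F) Pool.Agent.T6.H5.PL.stmtFL_all
    hF.measurable hF.smooth hF.eigen hF.stationary hF.moment p hp hp2 hint' hpos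
  obtain ⟨k1, k2, k3⟩ := key
  refine ⟨fun h => ?_, fun h => ?_, fun _ heq => k3 heq⟩
  · have hs : Pool.Agent.T6.H5.PL.sg p = 1 := by
      unfold Pool.Agent.T6.H5.PL.sg; rw [if_pos h]
    rw [hs, one_mul, one_mul] at k1 k2
    exact ⟨k1, k2⟩
  · have hs : Pool.Agent.T6.H5.PL.sg p = -1 := by
      unfold Pool.Agent.T6.H5.PL.sg; rw [if_neg (by linarith)]
    rw [hs, neg_one_mul, neg_one_mul, neg_le_neg_iff] at k1 k2
    exact ⟨k2, k1⟩

end

end Pool.Agent.Results.MP_4fa179_mp.LpNorms
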