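import Pool.Agent.T6.H85.NL.MAIN
import Pool.Agent.T6.H85.NL.SMP
import Pool.Agent.T6.H85.NL.CIRC
import Pool.Agent.T6.H85.NL.JAC
import Pool.Agent.T6.H85.NL.JDS
import Pool.Agent.T6.H85.NL.DBAR
import Pool.Agent.T6.H85.NL.CARL
import Pool.Agent.T6.H85.NL.SUC
import Pool.Agent.T6.H85.NL.FLAT
import Pool.Agent.T6.H85.NL.SING
import Pool.Agent.T6.H85.NL.CAREA
import Pool.Agent.T6.H85.NL.LAREA
import Pool.Agent.T6.H85.NL.COV
import Pool.Agent.T6.H85.NL.TUBE
import Pool.Agent.T6.H85.NL.LAY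
import Pool.Agent.T6.H85.NL.LOC
import Pool.Agent.T6.H85.NL.BALL
import Pool.Agent.T6.H85.NL.SURF
import Pool.Agent.T6.H85.NL.SHARP

/-!
# The sharp lower bound for the nodal length of eigenfunctions on surfaces (MP_4fa179_mp)

A Riemannian surface in isothermal coordinates: an open set `Ω` of the plane with the metric
`ρ |dx|²`, area measure `ρ dx` and length measure `√ρ dℋ¹`. The eigenfunction equation
`Δ_g u = λ u` (nonnegative Laplacian) reads `laplacian u + λ ρ u = 0`. The theorem says that the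
nodal length of `u_n` in any open set `U`, measured in the metric rescaled by `√λ_n`, is
asymptotically at least `1/π` times the rescaled area of `U`. Berry's random wave has
`1/(2√2)` in place of `1/π`, so every Benjamini-Schramm limit has at least 90 percent of the
nodal length of the random wave; the constant `1/π` is attained by the plane wave `cos x_0`.
-/

set_option autoImplicit false
open MeasureTheory Metric Filter Topology Real
open scoped ContDiff ENNReal NNReal

namespace Pool.Agent.Results.MP_4fa179_mp.NodalLength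

noncomputable section

/-- the Euclidean plane -/
abbrev Plane := EuclideanSpace ℝ (Fin 2)

/-- the Laplacian `∂_0² + ∂_1²` of the plane -/
def laplacian (f : Plane → ℝ) (y : Plane) : ℝ :=
  ∑ i, fderiv ℝ (fun z => fderiv ℝ f z (EuclideanSpace.single i 1)) y (EuclideanSpace.single i 1)

/-- the area of `U` for the metric `ρ |dx|²` -/
def area (ρ : Plane → ℝ) (U : Set Plane) : ℝ≥0∞ := ∫⁻ x in U, ENNReal.ofReal (ρ x)

/-- the length of the nodal set of `u` in `U` for the metric `ρ |dx|²` -/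
def nodalLength (ρ : Plane → ℝ) (U : Set Plane) (u : Plane → ℝ) : ℝ≥0∞ :=
  ∫⁻ x in {x | x ∈ U ∧ u x = 0}, ENNReal.ofReal (√(ρ x)) ∂μH[1]

theorem lap_eq (f : Plane → ℝ) (y : Plane) :
    laplacian f y = Pool.Agent.T6.H85.NL.lap f y := by
  simp only [laplacian, Fin.sum_univ_two]
  rfl

theorem nodal_one (U : Set Plane) (u : Plane → ℝ) :
    nodalLength 1 U u = μH[1] {x | x ∈ U ∧ u x = 0} := by
  simp [nodalLength]

open Pool.Agent.T6.H85.NL in
theorem hLOC : LOCStm :=
  loc flat (suc (carl dbar)) sing (circ smp) (jds jac) (tube (larea carea) cov) lay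

/-- **Sharp lower bound for the nodal length.** -/
theorem result :
    (∀ (Ω : Set Plane) (ρ : Plane → ℝ) (lam : ℕ → ℝ) (u : ℕ → Plane → ℝ), IsOpen Ω →
      ContDiffOn ℝ ∞ ρ Ω → (∀ x ∈ Ω, 0 < ρ x) → Tendsto lam atTop atTop →
      (∀ n, ContDiffOn ℝ ∞ (u n) Ω) →
      (∀ n, ∀ x ∈ Ω, laplacian (u n) x + lam n * ρ x * u n x = 0) →
      ∀ U ⊆ Ω, IsOpen U →
        ENNReal.ofReal (1 / π) * area ρ U ≤
          liminf (fun n => ENNReal.ofReal (1 / √(lam n)) * nodalLength ρ U (u n)) atTop) ∧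
    (∀ u : Plane → ℝ, ContDiff ℝ ∞ u → (∀ x, laplacian u x + u x = 0) →
      ∀ (c : Plane) (R : ℝ), 0 ≤ R →
        ENNReal.ofReal (R ^ 2 - 12 * R) ≤ nodalLength 1 (ball c R) u) ∧
    (∀ (c : Plane) (R : ℝ), 0 ≤ R →
      nodalLength 1 (ball c R) (fun x => Real.cos (x 0)) ≤ ENNReal.ofReal (R ^ 2 + 2 * R)) := by
  refine ⟨?_, ?_, ?_⟩
  · intro Ω ρ lam u hΩ hρ hρ0 hlam hu he U hUΩ hU
    exact Pool.Agent.T6.H85.NL.surf (Pool.Agent.T6.H85.NL.ball_as hLOC) Ω hΩ ρ hρ hρ0 lam hlam u hu
      (fun n x hx => by rw [← lap_eq]; exact he n x hx) U hU hUΩ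
  · intro u hu he c R hR
    rw [nodal_one]
    exact Pool.Agent.T6.H85.NL.entire hLOC u hu (fun x => by rw [← lap_eq]; exact he x) c R hR
  · intro c R hR
    rw [nodal_one]
    exact Pool.Agent.T6.H85.NL.sharp c R hR

end

end Pool.Agent.Results.MP_4fa179_mp.NodalLength
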